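import Pool.Agent.H466.HE.SC
import Pool.Graph.R_pool_sql_team_seeded_3dad9d7b.NH13.UV.YH

/-!
# HE-LLW: the local law (assembly)
-/

set_option autoImplicit false

namespace Pool.Agent.H106.HE.LLW

open Complex MeasureTheory Set Filter Topology
open scoped ComplexConjugate
open Pool.Agent.H466.HF Pool.Agent.H466.LD Pool.Agent.H466.HP Pool.Agent.H466.HN
open Pool.Agent.H466.HD Pool.Agent.H466.HE

/-! ### the counting function of the windows -/

/-- weight in the window of half length `h` around `t` -/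
noncomputable def cnt (Z : Finset ℂ) (m : ℂ → ℝ) (h t : ℝ) : ℝ :=
  ∑ z ∈ Z with |z.im - t| ≤ h, m z

theorem cnt_nonneg (Z : Finset ℂ) (m : ℂ → ℝ) (hm : ∀ z, 0 ≤ m z) (h t : ℝ) :
    0 ≤ cnt Z m h t := Finset.sum_nonneg fun z _ => hm z

theorem cnt_eq (Z : Finset ℂ) (m : ℂ → ℝ) (h : ℝ) :
    cnt Z m h = fun t => ∑ z ∈ Z, (Icc (z.im - h) (z.im + h)).indicator (fun _ => m z) t := by
  funext t
  unfold cnt
  rw [Finset.sum_filter]
  refine Finset.sum_congr rfl fun z _ => ?_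
  by_cases hz : |z.im - t| ≤ h
  · rw [if_pos hz, indicator_of_mem]
    have := abs_le.1 hz
    exact ⟨by linarith [this.2], by linarith [this.1]⟩
  · rw [if_neg hz, indicator_of_notMem]
    intro hc
    exact hz (abs_le.2 ⟨by linarith [hc.2], by linarith [hc.1]⟩)

theorem ind_int (a b c : ℝ) : Integrable ((Icc a b).indicator (fun _ : ℝ => c)) := by
  rw [integrable_indicator_iff measurableSet_Icc]
  exact integrableOn_const (by rw [Real.volume_Icc]; exact ENNReal.ofReal_ne_top)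

theorem cnt_int (Z : Finset ℂ) (m : ℂ → ℝ) (h : ℝ) : Integrable (cnt Z m h) := by
  rw [cnt_eq]
  exact integrable_finsetSum _ fun z _ => ind_int _ _ _

theorem cnt_integral (Z : Finset ℂ) (m : ℂ → ℝ) (h : ℝ) (hh : 0 ≤ h) :
    ∫ t, cnt Z m h t = 2 * h * ∑ z ∈ Z, m z := by
  rw [cnt_eq, integral_finsetSum _ (fun z _ => ind_int _ _ _), Finset.mul_sum]
  refine Finset.sum_congr rfl fun z _ => ?_
  rw [integral_indicator_const _ measurableSet_Icc, Measure.real, Real.volume_Icc,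
    ENNReal.toReal_ofReal (by linarith), smul_eq_mul]
  ring

/-- the windows of half length `W D` are covered by windows of half length `D` -/
theorem cnt_cover (Z : Finset ℂ) (m : ℂ → ℝ) (hm : ∀ z, 0 ≤ m z) (W D t : ℝ)
    (hD : 0 < D) (J : ℕ) (hJ : W ≤ J) :
    cnt Z m (W * D) t ≤ ∑ j ∈ Finset.Icc (-(J : ℤ)) J, cnt Z m D (t + j * D) := by
  unfold cnt
  simp only [Finset.sum_filter]
  rw [Finset.sum_comm]
  refine Finset.sum_le_sum fun z _ => ?_
  by_cases hz : |z.im - t| ≤ W * D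
  · rw [if_pos hz]
    set j : ℤ := round ((z.im - t) / D) with hj
    have h1 : |(z.im - t) / D - j| ≤ 1 / 2 := abs_sub_round _
    have h2 : |z.im - (t + j * D)| ≤ D := by
      have e : z.im - (t + j * D) = ((z.im - t) / D - j) * D := by
        field_simp
        ring
      rw [e, abs_mul, abs_of_pos hD]
      have := mul_le_mul_of_nonneg_right h1 hD.le
      linarith
    have h3 : |(z.im - t) / D| ≤ J := by
      rw [abs_div, abs_of_pos hD, div_le_iff₀ hD]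
      exact hz.trans (mul_le_mul_of_nonneg_right hJ hD.le)
    have h4 := abs_le.1 h3
    have h5 := abs_le.1 h1
    have h6 : j ∈ Finset.Icc (-(J : ℤ)) J := by
      rw [Finset.mem_Icc]
      constructor
      · have : (-(J : ℤ) : ℝ) - 1 < (j : ℝ) := by push_cast; linarith [h4.1, h5.2]
        have h7 : ((-(J : ℤ) - 1 : ℤ) : ℝ) < (j : ℝ) := by push_cast; push_cast at this; exact this
        have h8 : -(J : ℤ) - 1 < j := by exact_mod_cast h7
        omega
      · have h7 : (j : ℝ) < ((J + 1 : ℤ) : ℝ) := by push_cast; linarith [h4.2, h5.1]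
        have h8 : j < (J : ℤ) + 1 := by exact_mod_cast h7
        omega
    refine le_trans (le_of_eq ?_) (Finset.single_le_sum (f := fun j : ℤ =>
      if |z.im - (t + j * D)| ≤ D then m z else 0) (fun i _ => ?_) h6)
    · rw [if_pos h2]
    · split_ifs
      · exact hm z
      · exact le_rfl
  · rw [if_neg hz]
    refine Finset.sum_nonneg fun i _ => ?_
    split_ifs
    · exact hm z
    · exact le_rfl

/-- shift of the variable -/
theorem cnt_shift (Z : Finset ℂ) (m : ℂ → ℝ) (h a : ℝ) (E : Set ℝ) :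
    ∫ t in E, cnt Z m h (t + a) = ∫ t in (fun s : ℝ => s - a) ⁻¹' E, cnt Z m h t := by
  have h1 := (measurePreserving_add_right (volume : Measure ℝ) a).setIntegral_preimage_emb
    (measurableEmbedding_addRight a) (cnt Z m h) ((fun s : ℝ => s - a) ⁻¹' E)
  rw [← h1]
  have h2 : (fun x : ℝ => x + a) ⁻¹' ((fun s : ℝ => s - a) ⁻¹' E) = E := by
    ext x
    simp
  rw [h2]

/-- Markov's inequality -/
theorem markov (X : ℝ → ℝ) (hX : Integrable X) (G : Set ℝ) (hG : MeasurableSet G)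
    (c c0 T θ : ℝ) (hc : 0 ≤ c) (hθ : 0 < θ) (hXc : ∀ t ∈ G, X t ≤ c)
    (hGT : volume G ≤ ENNReal.ofReal T) (hT : 0 ≤ T)
    (hint : c0 * T ≤ ∫ t in G, X t) :
    volume {t | t ∈ G ∧ X t < c - θ} ≤ ENNReal.ofReal ((c - c0) * T / θ) := by
  have hfin : volume G ≠ ⊤ := (hGT.trans_lt ENNReal.ofReal_lt_top).ne
  have hci : IntegrableOn (fun _ : ℝ => c) G := integrableOn_const hfin
  have hf : IntegrableOn (fun t => c - X t) G := hci.sub hX.integrableOn
  have h0 : 0 ≤ᵐ[volume.restrict G] fun t => c - X t := by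
    rw [Filter.EventuallyLE, ae_restrict_iff' hG]
    exact Filter.Eventually.of_forall fun t ht => sub_nonneg.2 (hXc t ht)
  have h1 := mul_meas_ge_le_integral_of_nonneg h0 hf θ
  have h2 : ∫ t in G, (c - X t) ≤ (c - c0) * T := by
    rw [integral_sub hci hX.integrableOn, setIntegral_const, smul_eq_mul]
    have h3 : volume.real G ≤ T := ENNReal.toReal_le_of_le_ofReal hT hGT
    have h4 : volume.real G * c ≤ T * c := mul_le_mul_of_nonneg_right h3 hc
    linarith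
  have h3 : (volume.restrict G).real {x | θ ≤ c - X x} ≤ (c - c0) * T / θ := by
    rw [le_div_iff₀ hθ]
    linarith
  have h4 : (volume.restrict G) {x | θ ≤ c - X x} ≠ ⊤ := by
    rw [Measure.restrict_apply' hG]
    exact ((measure_mono inter_subset_right).trans_lt hfin.lt_top).ne
  have h5 : (volume.restrict G) {x | θ ≤ c - X x} ≤ ENNReal.ofReal ((c - c0) * T / θ) := by
    rw [← ENNReal.ofReal_toReal h4]
    exact ENNReal.ofReal_le_ofReal h3
  refine le_trans ?_ h5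
  rw [Measure.restrict_apply' hG]
  refine measure_mono ?_
  rintro t ⟨ht1, ht2⟩
  exact ⟨by show θ ≤ c - X t; linarith, ht1⟩

/-! ### symmetry -/

theorem two_sided (m : ℂ → ℝ) (hsym : ∀ z, m (-(conj z)) = m z) (Zr : ℂ → Prop)
    (hZ : ∀ z, Zr z → Zr (-(conj z))) (a b K t w : ℝ)
    (hP : ∀ S : Finset ℂ, (∀ z ∈ S, Zr z ∧ |z.im - t| ≤ w ∧ a ≤ z.re ∧ z.re ≤ b) →
      ∑ z ∈ S, m z ≤ K)
    (S : Finset ℂ) (hS : ∀ z ∈ S, Zr z ∧ |z.im - t| ≤ w ∧ a ≤ |z.re| ∧ |z.re| ≤ b) :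
    ∑ z ∈ S, m z ≤ 2 * K := by
  classical
  have hinj : Function.Injective (fun z : ℂ => -(conj z)) := by
    intro z z' h
    have h1 : conj z = conj z' := neg_injective h
    exact (starRingEnd ℂ).injective h1
  rw [← Finset.sum_filter_add_sum_filter_not S (fun z => 0 ≤ z.re)]
  have h1 : ∑ z ∈ S with 0 ≤ z.re, m z ≤ K := by
    refine hP _ fun z hz => ?_
    obtain ⟨hz1, hz2⟩ := Finset.mem_filter.1 hz
    obtain ⟨g1, g2, g3, g4⟩ := hS z hz1
    rw [abs_of_nonneg hz2] at g3 g4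
    exact ⟨g1, g2, g3, g4⟩
  have h2 : ∑ z ∈ S with ¬ 0 ≤ z.re, m z ≤ K := by
    have e : ∑ z ∈ S with ¬ 0 ≤ z.re, m z =
        ∑ z ∈ (S.filter (fun z => ¬ 0 ≤ z.re)).image (fun z : ℂ => -(conj z)), m z := by
      rw [Finset.sum_image (fun x _ y _ h => hinj h)]
      exact Finset.sum_congr rfl fun z _ => (hsym z).symm
    rw [e]
    refine hP _ fun z hz => ?_
    obtain ⟨z', hz', rfl⟩ := Finset.mem_image.1 hz
    obtain ⟨hz1, hz2⟩ := Finset.mem_filter.1 hz'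
    obtain ⟨g1, g2, g3, g4⟩ := hS z' hz1
    rw [abs_of_neg (not_le.1 hz2)] at g3 g4
    have e1 : (-(conj z')).re = -z'.re := by simp
    have e2 : (-(conj z')).im = z'.im := by simp
    rw [e1, e2]
    exact ⟨hZ _ g1, g2, g3, g4⟩
  linarith

theorem zero_sym {lam : ℝ} {z : ℂ} (h : LL gk lam z = 0) : LL gk lam (-(conj z)) = 0 := by
  rw [Flam_fe, h, map_zero]

theorem ord_sym (lam : ℝ) (z : ℂ) :
    (analyticOrderNatAt (LL gk lam) (-(conj z)) : ℝ) = analyticOrderNatAt (LL gk lam) z := by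
  obtain ⟨A, k⟩ := gk_kern
  have h := Pool.Agent.NH13.UV.yh.order_rf (k.differentiable lam) (Flam_fe lam) z
  unfold analyticOrderNatAt
  rw [h]


/-- no zero outside the strip -/
theorem free {ε W σ ρ κ A1 T t μ : ℝ} (hσ : 0 < σ) (hσ1 : σ ≤ 1)
    (hΔ : 0 < μ * Real.log T) (hWΔ : (W + 1) * (μ * Real.log T) ≤ 1) (ht1 : T + 1 ≤ t)
    (ht2 : t ≤ 2 * T - 1) (hG : GG ρ σ W κ A1 T t μ)
    (hzf : ∀ t' : ℝ, T ≤ t' → t' ≤ 2 * T → Rg T t' A1 (1 / κ) κ → ∀ z : ℂ,
      (1 + ε) * (μ * Real.log T) ≤ z.re → z.re ≤ 3 → |z.im - t'| ≤ μ * Real.log T →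
        LL gk (-μ) z ≠ 0)
    (hz4 : ∀ z : ℂ, T ≤ z.im → z.im ≤ 2 * T → 3 ≤ |z.re| → LL gk (-μ) z ≠ 0)
    (z : ℂ) (hz : LL gk (-μ) z = 0) (hzt : |z.im - t| ≤ W * (μ * Real.log T)) :
    |z.re| ≤ (1 + ε) * (μ * Real.log T) := by
  set Δ := μ * Real.log T with hΔd
  by_contra hcon
  have hcon' := (not_le.1 hcon).le
  have hWΔ1 : W * Δ ≤ 1 := (mul_le_mul_of_nonneg_right (by linarith) hΔ.le).trans hWΔ
  have ha := abs_le.1 hzt
  -- reflect
  obtain ⟨z', hz'0, hz're, hz'im⟩ : ∃ z' : ℂ, LL gk (-μ) z' = 0 ∧ z'.re = |z.re| ∧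
      z'.im = z.im := by
    rcases le_or_gt 0 z.re with h | h
    · exact ⟨z, hz, (abs_of_nonneg h).symm, rfl⟩
    · refine ⟨-(conj z), zero_sym hz, ?_, by simp⟩
      rw [abs_of_neg h]
      simp
  have h3 : |z.re| < 3 := by
    by_contra h
    exact hz4 z (by linarith [ha.1]) (by linarith [ha.2]) (not_lt.1 h) hz
  have hσΔ : 0 < σ * Δ := mul_pos hσ hΔ
  set j : ℤ := round ((z.im - t) / (σ * Δ)) with hj
  have h4 : |(z.im - t) / (σ * Δ) - j| ≤ 1 / 2 := abs_sub_round _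
  have h5 : |z.im - (t + σ * j * Δ)| ≤ Δ / 2 := by
    have e : z.im - (t + σ * j * Δ) = ((z.im - t) / (σ * Δ) - j) * (σ * Δ) := by
      field_simp
      ring
    rw [e, abs_mul, abs_of_pos hσΔ]
    have g1 := mul_le_mul_of_nonneg_right h4 hσΔ.le
    have g2 : σ * Δ ≤ 1 * Δ := mul_le_mul_of_nonneg_right hσ1 hΔ.le
    linarith
  have h5' := abs_le.1 h5
  have h6 : |σ * j| ≤ W + 1 := by
    have g1 : |σ * j * Δ| ≤ (W + 1) * Δ := by
      rw [abs_le, add_mul, one_mul]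
      constructor
      · linarith [ha.1, ha.2, h5'.1, h5'.2]
      · linarith [ha.1, ha.2, h5'.1, h5'.2]
    rw [abs_mul, abs_of_pos hΔ] at g1
    exact le_of_mul_le_mul_right g1 hΔ
  obtain ⟨hR, -⟩ := hG 0 j (by simp) (by simp) h6
  have h7 : |σ * j * Δ| ≤ 1 := by
    rw [abs_mul, abs_of_pos hΔ]
    exact (mul_le_mul_of_nonneg_right h6 hΔ.le).trans hWΔ
  have h7' := abs_le.1 h7
  refine hzf (t + σ * j * Δ) (by linarith [h7'.1]) (by linarith [h7'.2]) hR z' ?_ ?_ ?_ hz'0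
  · rw [hz're]
    exact hcon'
  · rw [hz're]
    exact h3.le
  · rw [hz'im]
    linarith

theorem llw (h1 : S_LUP) (h2 : S_GGM) (h3 : S_BAD) (h4 : S_UNI) (h5 : S_ZF1) (h6 : S_ZF4) :
    S_LLW := by
  intro ε W hε hW
  set ε1 : ℝ := min ε 1 with hε1
  have he0 : 0 < ε1 := lt_min hε one_pos
  have he1 : ε1 ≤ 1 := min_le_right _ _
  have hee : ε1 ≤ ε := min_le_left _ _
  have he2 : ε1 ^ 2 ≤ ε1 := by nlinarith
  obtain ⟨ε', ρ, σ, κl, δl, hε', hρ, hρ1, hσ, hσ1, hκl, hδl, hlup⟩ :=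
    h1 (ε1 ^ 2 / 64) W (by positivity) (by nlinarith) hW
  obtain ⟨J, hJ1, hJ2⟩ : ∃ J : ℕ, W ≤ J ∧ (J : ℝ) ≤ W + 1 :=
    ⟨⌈W⌉₊, Nat.le_ceil W, (Nat.ceil_lt_add_one hW.le).le⟩
  set εb : ℝ := ε1 ^ 2 / 32 * (W / (Real.pi * (2 * J + 1))) with hεb
  have hεb0 : 0 < εb := by positivity
  obtain ⟨e0, A0b, δb, T0b, he0b, hA0b, hδb, hT0b, hbad⟩ := h3 εb hεb0
  set ε0 : ℝ := min (ε1 / 4) (e0 / 2) with hε0
  have hε0p : 0 < ε0 := by positivity
  obtain ⟨κg, hκg, hggm⟩ := h2 ρ σ W ε0 hρ hρ1 hσ hW hε0p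
  obtain ⟨κz, δz, hκz, hδz, hzf⟩ := h5 ε1 3 he0 he1 (by norm_num)
  set κ : ℝ := min (min κl κg) (min κz 1) with hκ
  have hκp : 0 < κ := by positivity
  obtain ⟨A1, A0g, δg, T0g, hA1, hA0g, hδg, hT0g, hggm⟩ :=
    hggm κ hκp ((min_le_left _ _).trans (min_le_right _ _))
      ((min_le_right _ _).trans (min_le_right _ _))
  obtain ⟨A0l, T0l, hA0l, hT0l, hlup⟩ :=
    hlup κ hκp ((min_le_left _ _).trans (min_le_left _ _)) A1 hA1
  obtain ⟨A0z, T0z, hA0z, hT0z, hzf⟩ :=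
    hzf κ hκp ((min_le_right _ _).trans (min_le_left _ _)) A1 hA1
  obtain ⟨A0u, δu, T0u, hA0u, hδu, hT0u, huni⟩ := h4 (ε1 ^ 2 / 32) (by positivity)
  obtain ⟨δ4, T04, hδ4, hT04, hz4⟩ := h6
  refine ⟨max (max A0b A0g) (max A0l (max A0z A0u)),
    min (min δl (min δb δg)) (min (min δz (min δu δ4)) (1 / (W + 2))),
    max (max (max T0b T0g) (max T0l T0z)) (max (max T0u T04) (4 / ε0)),
    hA0b.trans ((le_max_left _ _).trans (le_max_left _ _)), by positivity,
    hT0b.trans ((le_max_left _ _).trans ((le_max_left _ _).trans (le_max_left _ _))), ?_⟩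
  intro T μ hT hμ hA hδ
  obtain ⟨hT1, hT2⟩ := max_le_iff.1 hT
  obtain ⟨hT11, hT12⟩ := max_le_iff.1 hT1
  obtain ⟨hTb, hTg⟩ := max_le_iff.1 hT11
  obtain ⟨hTl, hTz⟩ := max_le_iff.1 hT12
  obtain ⟨hT21, hTe⟩ := max_le_iff.1 hT2
  obtain ⟨hTu, hT4⟩ := max_le_iff.1 hT21
  obtain ⟨hA1', hA2'⟩ := max_le_iff.1 hA
  obtain ⟨hAb, hAg⟩ := max_le_iff.1 hA1'
  obtain ⟨hAl, hA3'⟩ := max_le_iff.1 hA2'
  obtain ⟨hAz, hAu⟩ := max_le_iff.1 hA3'
  obtain ⟨hδ1, hδ2⟩ := le_min_iff.1 hδ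
  obtain ⟨hδl', hδ3⟩ := le_min_iff.1 hδ1
  obtain ⟨hδb', hδg'⟩ := le_min_iff.1 hδ3
  obtain ⟨hδ4', hδW⟩ := le_min_iff.1 hδ2
  obtain ⟨hδz', hδ5⟩ := le_min_iff.1 hδ4'
  obtain ⟨hδu', hδ44⟩ := le_min_iff.1 hδ5
  have hT10 : 10 ≤ T := hT0b.trans hTb
  have hTp : 0 < T := by linarith
  have hL : 0 < Real.log T := Real.log_pos (by linarith)
  have hlup := fun t ht1 ht2 => hlup T t μ hTl ht1 ht2 hμ hAl hδl'
  have hzf := fun t ht1 ht2 hR => hzf T t μ hTz ht1 ht2 hR hμ hAz hδz'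
  have hz4 := hz4 T μ hT4 hμ hδ44
  have hbad := hbad T μ hTb hμ hAb hδb'
  have hggm := hggm T μ hTg hμ hAg hδg'
  obtain ⟨-, Z1, hZ1, hZ1s⟩ := huni T μ hTu hμ hAu hδu' 1 zero_le_one le_rfl
  set L := Real.log T with hLdef
  have hΔp : 0 < μ * L := by positivity
  have hAp : 0 < μ * L ^ 2 := by positivity
  have hWΔ2 : (W + 2) * (μ * L) ≤ 1 := by
    rw [le_div_iff₀ (by positivity)] at hδW
    linarith
  have hWΔ1 : (W + 1) * (μ * L) ≤ 1 :=
    (mul_le_mul_of_nonneg_right (by linarith) hΔp.le).trans hWΔ2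
  have hWΔ : W * (μ * L) ≤ 1 :=
    (mul_le_mul_of_nonneg_right (by linarith) hΔp.le).trans hWΔ2
  have hWΔ0 : 0 ≤ W * (μ * L) := by positivity
  have hεT : 4 ≤ ε0 * T := by
    rw [div_le_iff₀ hε0p] at hTe
    linarith
  set m : ℂ → ℝ := fun z => (analyticOrderNatAt (LL gk (-μ)) z : ℝ) with hm
  have hm0 : ∀ z, 0 ≤ m z := fun z => Nat.cast_nonneg _
  have hmsym : ∀ z, m (-(conj z)) = m z := fun z => ord_sym (-μ) z
  set M0 : ℝ := W * (μ * L ^ 2) / Real.pi with hM0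
  have hM0p : 0 < M0 := by positivity
  -- two-sided upper bound at the good points
  have hup : ∀ t : ℝ, T + 1 ≤ t → t ≤ 2 * T - 1 → GG ρ σ W κ A1 T t μ →
      ∀ a b : ℝ, 0 ≤ a → a ≤ b → b ≤ 1 →
      ∀ S : Finset ℂ, (∀ z ∈ S, LL gk (-μ) z = 0 ∧ |z.im - t| ≤ W * (μ * L) ∧
          a * (μ * L) ≤ |z.re| ∧ |z.re| ≤ b * (μ * L)) →
        ∑ z ∈ S, m z ≤ 2 * (((b - a) / 2 + ε1 ^ 2 / 64) * M0) := by
    intro t ht1 ht2 hG a b ha hab hb S hS
    refine two_sided m hmsym (fun z => LL gk (-μ) z = 0) (fun z hz => zero_sym hz)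
      (a * (μ * L)) (b * (μ * L)) _ t (W * (μ * L)) ?_ S hS
    intro S' hS'
    refine hlup t ht1 ht2 hG a b ha hab hb S' fun z hz => ?_
    obtain ⟨g1, g2, g3, g4⟩ := hS' z hz
    refine ⟨g1, g2, ?_, ?_⟩
    · have : 0 ≤ ε' * (μ * L) := mul_nonneg hε'.le hΔp.le
      rw [sub_mul]
      linarith
    · have : 0 ≤ ε' * (μ * L) := mul_nonneg hε'.le hΔp.le
      rw [add_mul]
      linarith
  -- the sets
  set N0 : Set ℝ := {t : ℝ | t ∈ Icc (T + 1) (2 * T - 1) ∧ ¬ GG ρ σ W κ A1 T t μ} with hN0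
  set E : Set ℝ := (toMeasurable volume N0 ∪ (Icc (T - 1) (T + 1) ∪
    Icc (2 * T - 1) (2 * T + 1))) ∩ Icc (T - 1) (2 * T + 1) with hE
  have hEm : MeasurableSet E :=
    ((measurableSet_toMeasurable _ _).union (measurableSet_Icc.union measurableSet_Icc)).inter
      measurableSet_Icc
  have hEv : volume E ≤ ENNReal.ofReal (2 * (ε0 * T)) := by
    have g1 : volume E ≤ volume N0 + (volume (Icc (T - 1) (T + 1)) +
        volume (Icc (2 * T - 1) (2 * T + 1))) := by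
      refine (measure_mono inter_subset_left).trans ((measure_union_le _ _).trans ?_)
      rw [measure_toMeasurable]
      exact add_le_add le_rfl (measure_union_le _ _)
    have g2 : volume (Icc (T - 1) (T + 1)) = ENNReal.ofReal 2 := by
      rw [Real.volume_Icc]
      congr 1
      ring
    have g3 : volume (Icc (2 * T - 1) (2 * T + 1)) = ENNReal.ofReal 2 := by
      rw [Real.volume_Icc]
      congr 1
      ring
    rw [g2, g3, ← ENNReal.ofReal_add (by norm_num) (by norm_num)] at g1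
    refine g1.trans ((add_le_add hggm le_rfl).trans ?_)
    rw [← ENNReal.ofReal_add (by positivity) (by norm_num)]
    exact ENNReal.ofReal_le_ofReal (by linarith)
  set G : Set ℝ := Icc (T - 1) (2 * T + 1) \ E with hG
  have hGm : MeasurableSet G := measurableSet_Icc.diff hEm
  have hGt : ∀ t ∈ G, T + 1 ≤ t ∧ t ≤ 2 * T - 1 ∧ GG ρ σ W κ A1 T t μ := by
    intro t ht
    obtain ⟨ht1, ht2⟩ := ht
    have g0 : ∀ h : t ∈ toMeasurable volume N0 ∪ (Icc (T - 1) (T + 1) ∪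
        Icc (2 * T - 1) (2 * T + 1)), False := fun h => ht2 ⟨h, ht1⟩
    have g1 : T + 1 ≤ t := by
      by_contra h
      exact g0 (Or.inr (Or.inl ⟨ht1.1, (not_le.1 h).le⟩))
    have g2 : t ≤ 2 * T - 1 := by
      by_contra h
      exact g0 (Or.inr (Or.inr ⟨(not_le.1 h).le, ht1.2⟩))
    refine ⟨g1, g2, ?_⟩
    by_contra h
    exact g0 (Or.inl (subset_toMeasurable _ _ ⟨⟨g1, g2⟩, h⟩))
  have hGv : volume G ≤ ENNReal.ofReal T := by
    have g1 : G ⊆ Icc (T + 1) (2 * T - 1) := fun t ht => ⟨(hGt t ht).1, (hGt t ht).2.1⟩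
    refine (measure_mono g1).trans ?_
    rw [Real.volume_Icc]
    exact ENNReal.ofReal_le_ofReal (by linarith)
  -- the counting function
  set X : ℝ → ℝ := cnt Z1 m (W * (μ * L)) with hX
  have hXi : Integrable X := cnt_int _ _ _
  have hXc : ∀ t ∈ G, X t ≤ (1 + ε1 ^ 2 / 32) * M0 := by
    intro t ht
    obtain ⟨g1, g2, g3⟩ := hGt t ht
    have g4 := hup t g1 g2 g3 0 1 le_rfl zero_le_one le_rfl
      (Z1.filter fun z => |z.im - t| ≤ W * (μ * L)) (by
        intro z hz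
        obtain ⟨g5, g6⟩ := Finset.mem_filter.1 hz
        obtain ⟨g7, g8, -, -⟩ := hZ1 z g5
        refine ⟨g7, g6, ?_, g8⟩
        rw [zero_mul]
        exact abs_nonneg _)
    refine g4.trans (le_of_eq ?_)
    ring
  have hXs : ∀ t, t ∉ Icc (T - 1) (2 * T + 1) → X t = 0 := by
    intro t ht
    refine Finset.sum_eq_zero fun z hz => ?_
    obtain ⟨g5, g6⟩ := Finset.mem_filter.1 hz
    obtain ⟨-, -, g7, g8⟩ := hZ1 z g5
    have g9 := abs_le.1 g6
    exact absurd ⟨by linarith [g9.2], by linarith [g9.1]⟩ ht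
  have hXtot : (1 - ε1 ^ 2 / 32) * M0 * T ≤ ∫ t, X t := by
    rw [hX, cnt_integral _ _ _ hWΔ0]
    have g1 := mul_le_mul_of_nonneg_left hZ1s (show 0 ≤ 2 * (W * (μ * L)) by positivity)
    refine le_trans (le_of_eq ?_) g1
    rw [hM0]
    field_simp
  have hXsplit : ∫ t, X t = (∫ t in E, X t) + ∫ t in G, X t := by
    have g1 : ∫ t, X t = ∫ t in Icc (T - 1) (2 * T + 1), X t :=
      (setIntegral_eq_integral_of_forall_compl_eq_zero hXs).symm
    have g2 : E ∪ G = Icc (T - 1) (2 * T + 1) := by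
      rw [hG]
      exact union_diff_cancel inter_subset_right
    rw [g1, ← g2]
    exact setIntegral_union disjoint_sdiff_right hGm hXi.integrableOn hXi.integrableOn
  have hXE : ∫ t in E, X t ≤ ε1 ^ 2 / 32 * M0 * T := by
    have g1 : ∀ j ∈ Finset.Icc (-(J : ℤ)) J, ∫ t in E, cnt Z1 m (μ * L) (t + j * (μ * L)) ≤
        εb * (μ * L ^ 2) * T := by
      intro j hj
      rw [cnt_shift]
      have hj' := Finset.mem_Icc.1 hj
      have hjr : |(j : ℝ)| ≤ W + 1 := by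
        rw [abs_le]
        have g3 : (-(J : ℤ) : ℝ) ≤ (j : ℝ) := by exact_mod_cast hj'.1
        have g4 : (j : ℝ) ≤ ((J : ℤ) : ℝ) := by exact_mod_cast hj'.2
        push_cast at g3 g4
        constructor <;> linarith
      have hjΔ : |(j : ℝ) * (μ * L)| ≤ 1 := by
        rw [abs_mul, abs_of_pos hΔp]
        exact (mul_le_mul_of_nonneg_right hjr hΔp.le).trans hWΔ1
      have hjΔ' := abs_le.1 hjΔ
      have hEm' : MeasurableSet ((fun s : ℝ => s - j * (μ * L)) ⁻¹' E) :=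
        (measurable_id.sub_const _) hEm
      refine hbad _ hEm' ?_ ?_ Z1 ?_
      · intro s hs
        have g3 : s - j * (μ * L) ∈ E := hs
        have g4 := g3.2
        exact ⟨by linarith [g4.1, hjΔ'.1], by linarith [g4.2, hjΔ'.2]⟩
      · have g3 : volume ((fun s : ℝ => s - j * (μ * L)) ⁻¹' E) = volume E := by
          have := measure_preimage_add_right (volume : Measure ℝ) (-(j * (μ * L))) E
          simpa [sub_eq_add_neg] using this
        rw [g3]
        refine hEv.trans (ENNReal.ofReal_le_ofReal ?_)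
        have g4 : 2 * ε0 ≤ e0 := by
          have := min_le_right (ε1 / 4) (e0 / 2)
          linarith
        have g5 := mul_le_mul_of_nonneg_right g4 hTp.le
        linarith
      · intro z hz
        obtain ⟨g7, g8, -, -⟩ := hZ1 z hz
        refine ⟨g7, ?_⟩
        linarith
    have g2 : ∫ t in E, X t ≤ ∫ t in E, ∑ j ∈ Finset.Icc (-(J : ℤ)) J,
        cnt Z1 m (μ * L) (t + j * (μ * L)) := by
      refine setIntegral_mono hXi.integrableOn ?_
        (fun t => cnt_cover Z1 m hm0 W (μ * L) t hΔp J hJ1)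
      exact (integrable_finsetSum _ fun j _ =>
        (cnt_int Z1 m (μ * L)).comp_add_right _).integrableOn
    rw [integral_finsetSum _ (fun j _ =>
      ((cnt_int Z1 m (μ * L)).comp_add_right _).integrableOn)] at g2
    refine g2.trans ((Finset.sum_le_sum g1).trans ?_)
    rw [Finset.sum_const, Int.card_Icc, nsmul_eq_mul]
    have g3 : (((J : ℤ) + 1 - -(J : ℤ)).toNat : ℝ) = 2 * J + 1 := by
      have : (J : ℤ) + 1 - -(J : ℤ) = ((2 * J + 1 : ℕ) : ℤ) := by push_cast; ring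
      rw [this, Int.toNat_natCast]
      push_cast
      ring
    rw [g3, hεb, hM0]
    apply le_of_eq
    field_simp
  have hXG : (1 - ε1 ^ 2 / 16) * M0 * T ≤ ∫ t in G, X t := by
    rw [hXsplit] at hXtot
    linarith
  have hmk := markov X hXi G hGm ((1 + ε1 ^ 2 / 32) * M0) ((1 - ε1 ^ 2 / 16) * M0) T
    (ε1 / 2 * M0) (by positivity) (by positivity) hXc hGv hTp.le hXG
  refine ⟨E ∪ {t | t ∈ G ∧ X t < (1 + ε1 ^ 2 / 32) * M0 - ε1 / 2 * M0}, ?_, ?_⟩
  · refine (measure_union_le _ _).trans ((add_le_add hEv hmk).trans ?_)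
    have g1 : ((1 + ε1 ^ 2 / 32) * M0 - (1 - ε1 ^ 2 / 16) * M0) * T / (ε1 / 2 * M0) =
        3 / 16 * ε1 * T := by
      field_simp
      ring
    rw [g1, ← ENNReal.ofReal_add (by positivity) (by positivity)]
    refine ENNReal.ofReal_le_ofReal ?_
    have g2 : 2 * ε0 ≤ ε1 / 2 := by
      have := min_le_left (ε1 / 4) (e0 / 2)
      linarith
    have g3 := mul_le_mul_of_nonneg_right g2 hTp.le
    have g4 := mul_le_mul_of_nonneg_right hee hTp.le
    have g5 := mul_pos he0 hTp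
    linarith
  intro t ht htB
  have htG : t ∈ G := ⟨⟨by linarith [ht.1], by linarith [ht.2]⟩, fun h => htB (Or.inl h)⟩
  obtain ⟨ht1, ht2, hgg⟩ := hGt t htG
  have hXt : (1 + ε1 ^ 2 / 32) * M0 - ε1 / 2 * M0 ≤ X t := by
    by_contra h
    exact htB (Or.inr ⟨htG, not_le.1 h⟩)
  refine ⟨?_, ?_⟩
  · intro z hz hzt
    have g1 := free hσ hσ1 hΔp hWΔ1 ht1 ht2 hgg hzf hz4 z hz hzt
    refine g1.trans ?_
    exact mul_le_mul_of_nonneg_right (by linarith) hΔp.le
  · intro v hv0 hv1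
    refine ⟨?_, ?_⟩
    · intro S hS
      have g1 := hup t ht1 ht2 hgg 0 v le_rfl hv0 hv1 S (fun z hz => by
        obtain ⟨g2, g3, g4⟩ := hS z hz
        refine ⟨g2, g4, ?_, g3⟩
        rw [zero_mul]
        exact abs_nonneg _)
      refine g1.trans ?_
      have g2 : 2 * (((v - 0) / 2 + ε1 ^ 2 / 64) * M0) = (v + ε1 ^ 2 / 32) * M0 := by ring
      rw [g2]
      exact mul_le_mul_of_nonneg_right (by linarith) hM0p.le
    · refine ⟨(Z1.filter fun z => |z.im - t| ≤ W * (μ * L)).filter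
        (fun z => |z.re| ≤ v * (μ * L)), ?_, ?_⟩
      · intro z hz
        obtain ⟨g1, g2⟩ := Finset.mem_filter.1 hz
        obtain ⟨g3, g4⟩ := Finset.mem_filter.1 g1
        exact ⟨(hZ1 z g3).1, g2, g4⟩
      · have g1 := hup t ht1 ht2 hgg v 1 hv0 hv1 le_rfl
          ((Z1.filter fun z => |z.im - t| ≤ W * (μ * L)).filter
            (fun z => ¬ |z.re| ≤ v * (μ * L))) (by
            intro z hz
            obtain ⟨g1, g2⟩ := Finset.mem_filter.1 hz
            obtain ⟨g3, g4⟩ := Finset.mem_filter.1 g1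
            obtain ⟨g7, g8, -, -⟩ := hZ1 z g3
            exact ⟨g7, g4, (not_le.1 g2).le, g8⟩)
        have g2 : X t = ∑ z ∈ (Z1.filter fun z => |z.im - t| ≤ W * (μ * L)) with
            |z.re| ≤ v * (μ * L), m z +
            ∑ z ∈ (Z1.filter fun z => |z.im - t| ≤ W * (μ * L)) with
            ¬ |z.re| ≤ v * (μ * L), m z := by
          rw [Finset.sum_filter_add_sum_filter_not]
          rfl
        have g3 : (v - ε) * M0 ≤ (v - ε1) * M0 :=
          mul_le_mul_of_nonneg_right (by linarith) hM0p.le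
        have g4 : ε1 ^ 2 * M0 ≤ ε1 * M0 := mul_le_mul_of_nonneg_right he2 hM0p.le
        have g5 : 0 ≤ ε1 * M0 := by positivity
        have g6 : (1 + ε1 ^ 2 / 32) * M0 - ε1 / 2 * M0 -
            2 * (((1 - v) / 2 + ε1 ^ 2 / 64) * M0) = v * M0 - ε1 / 2 * M0 := by ring
        have g7 : (v - ε1) * M0 = v * M0 - ε1 * M0 := by ring
        have g8 : (v - ε) * M0 ≤ v * M0 - ε1 / 2 * M0 := by linarith
        refine g8.trans ?_
        linarith

end Pool.Agent.H106.HE.LLW
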