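import Pool.Agent.H466.HE.SB

/-!
# HE-PHI: average of the kernel over the centres on a vertical line
-/

set_option autoImplicit false

namespace Pool.Agent.H106.HE

open Complex MeasureTheory Set Filter Topology
open Pool.Agent.H466.HF Pool.Agent.H466.LD Pool.Agent.H466.HP Pool.Agent.H466.HN
open Pool.Agent.H466.HD Pool.Agent.H466.HE

/-- the sum over the scales -/
theorem geo {q q0 : ℝ} (h0 : 0 < q0) (hq : q0 ≤ q) (J : ℕ) :
    ∑ j ∈ Finset.range J, (2 : ℝ) ^ j * Real.exp (-(2 ^ j * q)) ≤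
      16 / q0 ^ 2 * Real.exp (-(q / 2)) := by
  have h1 : ∀ j ∈ Finset.range J, (2 : ℝ) ^ j * Real.exp (-(2 ^ j * q)) ≤
      (8 / q0 ^ 2 * Real.exp (-(q / 2))) * (1 / 2) ^ j := by
    intro j _
    have h2 : (1 : ℝ) ≤ 2 ^ j := one_le_pow₀ (by norm_num)
    have h2p : (0 : ℝ) < 2 ^ j := by positivity
    have h3 : q / 2 + 2 ^ j * q0 / 2 ≤ 2 ^ j * q := by
      have h4 : 1 * q ≤ 2 ^ j * q := mul_le_mul_of_nonneg_right h2 (by linarith)
      have h5 : 2 ^ j * q0 ≤ 2 ^ j * q := mul_le_mul_of_nonneg_left hq h2p.le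
      linarith
    have h4 : Real.exp (-(2 ^ j * q)) ≤ Real.exp (-(q / 2)) * Real.exp (-(2 ^ j * q0 / 2)) := by
      rw [← Real.exp_add]
      exact Real.exp_le_exp.2 (by linarith)
    have h5 : Real.exp (-(2 ^ j * q0 / 2)) ≤ 8 / ((2 ^ j) ^ 2 * q0 ^ 2) := by
      have h7 : 0 < (2 : ℝ) ^ j * q0 / 2 := by positivity
      have h6 := Real.quadratic_le_exp_of_nonneg h7.le
      rw [Real.exp_neg, ← one_div, div_le_div_iff₀ (Real.exp_pos _) (by positivity)]
      nlinarith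
    calc (2 : ℝ) ^ j * Real.exp (-(2 ^ j * q))
        ≤ 2 ^ j * (Real.exp (-(q / 2)) * (8 / ((2 ^ j) ^ 2 * q0 ^ 2))) :=
          mul_le_mul_of_nonneg_left (h4.trans (mul_le_mul_of_nonneg_left h5
            (Real.exp_pos _).le)) h2p.le
      _ = (8 / q0 ^ 2 * Real.exp (-(q / 2))) * (1 / 2) ^ j := by
          rw [one_div, inv_pow]
          field_simp
  refine (Finset.sum_le_sum h1).trans ?_
  rw [← Finset.mul_sum]
  have h2 := sum_geometric_two_le J
  calc (8 / q0 ^ 2 * Real.exp (-(q / 2))) * ∑ i ∈ Finset.range J, (1 / 2 : ℝ) ^ i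
      ≤ (8 / q0 ^ 2 * Real.exp (-(q / 2))) * 2 := mul_le_mul_of_nonneg_left h2 (by positivity)
    _ = _ := by ring

/-- three levels -/
def lev {α : Type} (a b : α) (f : ℕ → α) : ℕ → α
  | 0 => a
  | 1 => b
  | (k + 2) => f k

theorem sum_lev (a b : ℝ) (f : ℕ → ℝ) (a' b' : ℝ) (f' : ℕ → ℝ) (K : ℕ) :
    ∑ j ∈ Finset.range (K + 2), lev a b f j * lev a' b' f' j =
      (∑ k ∈ Finset.range K, f k * f' k) + b * b' + a * a' := by
  rw [Finset.sum_range_succ', Finset.sum_range_succ']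
  rfl

theorem lev_nonneg {a b : ℝ} {f : ℕ → ℝ} (ha : 0 ≤ a) (hb : 0 ≤ b) (hf : ∀ k, 0 ≤ f k) (j : ℕ) :
    0 ≤ lev a b f j := by
  match j with
  | 0 => exact ha
  | 1 => exact hb
  | (k + 2) => exact hf k

theorem reg_mono {t y0 M κ κ' L : ℝ} (hL : 0 ≤ L) (hκ : κ ≤ κ') (h : Reg1 t y0 M κ L) :
    Reg1 t y0 M κ' L :=
  ⟨h.1, fun z hz => (h.2 z hz).trans (mul_le_mul_of_nonneg_right hκ hL)⟩

/-- the largest bad level -/
theorem largest (K : ℕ) (p : ℕ → Prop) (h : ∃ k < K, p k) :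
    ∃ k < K, p k ∧ (k + 1 = K ∨ ¬ p (k + 1)) := by
  classical
  obtain ⟨k0, hk0, hp0⟩ := h
  set s := (Finset.range K).filter p with hs
  have hne : s.Nonempty := ⟨k0, Finset.mem_filter.2 ⟨Finset.mem_range.2 hk0, hp0⟩⟩
  have hm := s.max'_mem hne
  obtain ⟨m1, m2⟩ := Finset.mem_filter.1 hm
  refine ⟨s.max' hne, Finset.mem_range.1 m1, m2, ?_⟩
  by_contra hcon
  rw [not_or, not_not] at hcon
  have h1 : s.max' hne + 1 ∈ s := Finset.mem_filter.2
    ⟨Finset.mem_range.2 (by have := Finset.mem_range.1 m1; omega), hcon.2⟩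
  have h2 := s.le_max' _ h1
  omega


/-- integration of a function bounded on levels -/
theorem int_lev (g : ℝ → ℝ) (hg : Continuous g) (hg0 : ∀ t, 0 ≤ g t) (n : ℕ) (X : ℕ → Set ℝ)
    (N V : ℕ → ℝ) (hN : ∀ j, 0 ≤ N j) (hV : ∀ j, 0 ≤ V j)
    (hX : ∀ j < n, volume (X j) ≤ ENNReal.ofReal (V j))
    (h : ∀ t, g t = 0 ∨ ∃ j < n, t ∈ X j ∧ g t ≤ N j) :
    ∫ t, g t ≤ ∑ j ∈ Finset.range n, N j * V j := by
  have h1 : ∀ t, ENNReal.ofReal (g t) ≤ ∑ j ∈ Finset.range n,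
      (toMeasurable volume (X j)).indicator (fun _ => ENNReal.ofReal (N j)) t := by
    intro t
    rcases h t with h0 | ⟨j, hj, hjX, hjN⟩
    · rw [h0]
      simp
    · refine (ENNReal.ofReal_le_ofReal hjN).trans ?_
      have h2 : (toMeasurable volume (X j)).indicator (fun _ => ENNReal.ofReal (N j)) t =
          ENNReal.ofReal (N j) := indicator_of_mem (subset_toMeasurable _ _ hjX) _
      rw [← h2]
      exact Finset.single_le_sum
        (f := fun j => (toMeasurable volume (X j)).indicator (fun _ => ENNReal.ofReal (N j)) t)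
        (fun _ _ => bot_le) (Finset.mem_range.2 hj)
  have h2 : ∫⁻ t, ENNReal.ofReal (g t) ≤ ENNReal.ofReal (∑ j ∈ Finset.range n, N j * V j) := by
    refine (lintegral_mono h1).trans ?_
    rw [lintegral_finsetSum _ (fun j _ => measurable_const.indicator
      (measurableSet_toMeasurable _ _)), ENNReal.ofReal_sum_of_nonneg
      (fun j _ => mul_nonneg (hN j) (hV j))]
    refine Finset.sum_le_sum fun j hj => ?_
    rw [lintegral_indicator_const (measurableSet_toMeasurable _ _), measure_toMeasurable,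
      ENNReal.ofReal_mul (hN j)]
    exact mul_le_mul_right (hX j (Finset.mem_range.1 hj)) _
  rw [integral_eq_lintegral_of_nonneg_ae (Filter.Eventually.of_forall hg0)
    hg.aestronglyMeasurable]
  exact ENNReal.toReal_le_of_le_ofReal
    (Finset.sum_nonneg fun j _ => mul_nonneg (hN j) (hV j)) h2

theorem kk_nonneg (R ρ s : ℝ) : 0 ≤ kk R ρ s := le_max_left _ _

theorem kk_le {R ρ s : ℝ} (hρ : 0 < ρ) (hR : ρ ≤ R) (hs : 0 ≤ s) :
    kk R ρ s ≤ Real.log (R / ρ) := by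
  have hRp : 0 < R := hρ.trans_le hR
  refine max_le (Real.log_nonneg ((one_le_div hρ).2 hR)) ?_
  refine Real.log_le_log (div_pos hRp (by linarith)) ?_
  exact div_le_div_of_nonneg_left hRp.le hρ (by linarith)

theorem kk_zero {R ρ s : ℝ} (hρ : 0 < ρ) (hR : ρ ≤ R) (hs : R ≤ s) : kk R ρ s = 0 := by
  have hRp : 0 < R := hρ.trans_le hR
  refine max_eq_left ?_
  refine Real.log_nonpos (div_nonneg hRp.le (by linarith)) ?_
  rw [div_le_one (by linarith)]
  linarith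

theorem ph_cont {R ρ Δ x : ℝ} (hρ : 0 < ρ) (hR : ρ ≤ R) (hΔ : 0 < Δ) (z : ℂ) :
    Continuous (fun t : ℝ => kk R ρ (‖z - ((x : ℝ) + (t : ℂ) * I)‖ / Δ)) := by
  have hRp : 0 < R := hρ.trans_le hR
  unfold kk
  refine continuous_const.max ?_
  have h0 : ∀ t : ℝ, 0 < ‖z - ((x : ℝ) + (t : ℂ) * I)‖ / Δ + ρ := fun t => by positivity
  refine Continuous.log ?_ (fun t => (div_pos hRp (h0 t)).ne')
  refine Continuous.div continuous_const ?_ (fun t => (h0 t).ne')
  refine Continuous.add ?_ continuous_const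
  refine Continuous.div_const ?_ _
  refine Continuous.norm ?_
  fun_prop

theorem ph_far {R ρ Δ x : ℝ} (hρ : 0 < ρ) (hR : ρ ≤ R) (hR1 : R ≤ 1) (hΔ : 0 < Δ) (z : ℂ) (t : ℝ)
    (h : kk R ρ (‖z - ((x : ℝ) + (t : ℂ) * I)‖ / Δ) ≠ 0) :
    |z.im - t| ≤ Δ ∧ |z.re - x| ≤ Δ := by
  have h1 : ‖z - ((x : ℝ) + (t : ℂ) * I)‖ / Δ < R := by
    by_contra hc
    exact h (kk_zero hρ hR (not_lt.1 hc))
  have h2 : ‖z - ((x : ℝ) + (t : ℂ) * I)‖ ≤ Δ := by
    rw [div_lt_iff₀ hΔ] at h1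
    have : R * Δ ≤ 1 * Δ := mul_le_mul_of_nonneg_right hR1 hΔ.le
    linarith
  constructor
  · have h3 := Complex.abs_im_le_norm (z - ((x : ℝ) + (t : ℂ) * I))
    have h4 : (z - ((x : ℝ) + (t : ℂ) * I)).im = z.im - t := by simp
    rw [h4] at h3
    linarith
  · have h3 := Complex.abs_re_le_norm (z - ((x : ℝ) + (t : ℂ) * I))
    have h4 : (z - ((x : ℝ) + (t : ℂ) * I)).re = z.re - x := by simp
    rw [h4] at h3
    linarith

theorem ph_int {R ρ Δ x : ℝ} (hρ : 0 < ρ) (hR : ρ ≤ R) (hR1 : R ≤ 1) (hΔ : 0 < Δ) (z : ℂ) :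
    Integrable (fun t : ℝ => kk R ρ (‖z - ((x : ℝ) + (t : ℂ) * I)‖ / Δ)) := by
  refine (ph_cont hρ hR hΔ z).integrable_of_hasCompactSupport ?_
  refine HasCompactSupport.intro (isCompact_Icc (a := z.im - Δ) (b := z.im + Δ)) ?_
  intro t ht
  by_contra hc
  apply ht
  have h1 := abs_le.1 (ph_far hρ hR hR1 hΔ z t hc).1
  exact ⟨by linarith [h1.2], by linarith [h1.1]⟩

theorem phi (h1 : S_HBg) (h2 : S_JX) (h3 : S_CNTg) (h4 : S_REGX) (h5 : S_REG) : S_PHI := by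
  obtain ⟨κc, Cc, Ac, Tc, δc, hκc, hCc, hAc, hTc, hδc, hcnt⟩ := h3 128 (by norm_num)
  obtain ⟨Cz, hCz, hzc⟩ := h2
  obtain ⟨CX, cX, TX, hCX, hcX, hTX, hregx⟩ := h4 64 κc (by norm_num) hκc
  refine ⟨Cz + 1, by positivity, ?_⟩
  intro ρ R x0 hρ hρ1 hρR hR1 hx0 hx1
  have hRp : 0 < R := hρ.trans_le hρR
  set Λ : ℝ := Real.log (R / ρ) with hΛ
  have hΛ0 : 0 ≤ Λ := Real.log_nonneg ((one_le_div hρ).2 hρR)
  set ε0 : ℝ := ρ / (1 + Λ * Cc) with hε0
  have hε0p : 0 < ε0 := by positivity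
  have hε1 : Λ * Cc * ε0 ≤ ρ := by
    rw [hε0, mul_div_assoc', div_le_iff₀ (by positivity)]
    have : 0 ≤ Λ * Cc := by positivity
    nlinarith
  obtain ⟨κz, δz, hκz, hδz, hz⟩ := hzc ρ R hρ hρR hR1
  obtain ⟨κh, hκh, hhb⟩ := h1 ρ ε0 x0 hρ hρ1 hε0p hx0 hx1
  set κ : ℝ := min 1 (min κz κh) with hκ
  have hκp : 0 < κ := lt_min one_pos (lt_min hκz hκh)
  have hκ1 : κ ≤ 1 := min_le_left _ _
  have hκ2 : κ ≤ κz := (min_le_right _ _).trans (min_le_left _ _)
  have hκ3 : κ ≤ κh := (min_le_right _ _).trans (min_le_right _ _)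
  obtain ⟨A1, Tr, hA1, hTr, hreg⟩ := h5 (1 / κ) κ ε0 (by
    rw [le_div_iff₀ hκp]; linarith) hκp hε0p
  obtain ⟨Az, Tz, hAz, hTz, hz⟩ := hz κ hκp hκ2 A1 hA1
  obtain ⟨Ah, δh, Th, hAh, hδh, hTh, hhb⟩ := hhb κ hκp hκ3 A1 hA1
  -- the exponentially small tail
  set q0 : ℝ := cX / 64 with hq0
  have hq0p : 0 < q0 := by positivity
  set E : ℝ := (Λ + 1) * Cc * CX / 32 * (16 / q0 ^ 2) with hE
  have hEp : 0 < E := by positivity
  obtain ⟨Ae, hAe⟩ : ∃ Ae : ℝ, ∀ A : ℝ, Ae ≤ A → E * Real.exp (-(cX * A / 64 / 2)) ≤ ρ / 2 := by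
    refine ⟨128 / cX * Real.log (E / (ρ / 2)), fun A hA => ?_⟩
    have e1 : Real.log (E / (ρ / 2)) ≤ cX * A / 64 / 2 := by
      have e2 : cX / 128 * (128 / cX * Real.log (E / (ρ / 2))) ≤ cX / 128 * A :=
        mul_le_mul_of_nonneg_left hA (by positivity)
      have e3 : cX / 128 * (128 / cX * Real.log (E / (ρ / 2))) = Real.log (E / (ρ / 2)) := by
        field_simp
      linarith
    have e4 : E / (ρ / 2) ≤ Real.exp (cX * A / 64 / 2) := by
      rw [← Real.exp_log (show 0 < E / (ρ / 2) by positivity)]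
      exact Real.exp_le_exp.2 e1
    rw [Real.exp_neg, ← div_eq_mul_inv, div_le_iff₀ (Real.exp_pos _)]
    rw [div_le_iff₀ (by positivity)] at e4
    linarith
  refine ⟨max (max Ac Az) (max Ah Ae), min 1 (min δc (min δz δh)),
    max (max (max Tc Tz) (max Th Tr)) (max TX (2 / ε0)),
    hAc.trans ((le_max_left _ _).trans (le_max_left _ _)), by positivity,
    hTc.trans (((le_max_left _ _).trans (le_max_left _ _)).trans (le_max_left _ _)), ?_⟩
  intro T μ hT hμ hA hδ S hS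
  have hTTc : Tc ≤ T := (((le_max_left _ _).trans (le_max_left _ _)).trans (le_max_left _ _)).trans hT
  have hTTz : Tz ≤ T := (((le_max_right _ _).trans (le_max_left _ _)).trans (le_max_left _ _)).trans hT
  have hTTh : Th ≤ T := (((le_max_left _ _).trans (le_max_right _ _)).trans (le_max_left _ _)).trans hT
  have hTTr : Tr ≤ T := (((le_max_right _ _).trans (le_max_right _ _)).trans (le_max_left _ _)).trans hT
  have hTTX : TX ≤ T := ((le_max_left _ _).trans (le_max_right _ _)).trans hT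
  have hTρ : 2 / ε0 ≤ T := ((le_max_right _ _).trans (le_max_right _ _)).trans hT
  have hT10 : 10 ≤ T := hTc.trans hTTc
  have hTp : 0 < T := by linarith
  have hL : 0 < Real.log T := Real.log_pos (by linarith)
  set L := Real.log T with hLdef
  set A : ℝ := μ * L ^ 2 with hAdef
  set Δ : ℝ := μ * L with hΔ
  have hAc' : Ac ≤ A := ((le_max_left _ _).trans (le_max_left _ _)).trans hA
  have hAz' : Az ≤ A := ((le_max_right _ _).trans (le_max_left _ _)).trans hA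
  have hAh' : Ah ≤ A := ((le_max_left _ _).trans (le_max_right _ _)).trans hA
  have hAe' : Ae ≤ A := ((le_max_right _ _).trans (le_max_right _ _)).trans hA
  have hΔ1 : Δ ≤ 1 := hδ.trans (min_le_left _ _)
  have hΔc : Δ ≤ δc := (hδ.trans (min_le_right _ _)).trans (min_le_left _ _)
  have hΔz : Δ ≤ δz := ((hδ.trans (min_le_right _ _)).trans (min_le_right _ _)).trans (min_le_left _ _)
  have hΔh : Δ ≤ δh := ((hδ.trans (min_le_right _ _)).trans (min_le_right _ _)).trans (min_le_right _ _)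
  have hAp : 0 < A := by positivity
  have hΔp : 0 < Δ := by positivity
  have hΔL : Δ * L = A := by rw [hΔ, hAdef]; ring
  have hρ2T : 2 ≤ ε0 * T := by
    rw [div_le_iff₀ hε0p] at hTρ
    linarith
  set m : ℂ → ℝ := fun z => (analyticOrderNatAt (LL gk (-μ)) z : ℝ) with hm
  have hm0 : ∀ z, 0 ≤ m z := fun z => Nat.cast_nonneg _
  set φ : ℂ → ℝ → ℝ := fun z t => kk R ρ (‖z - ((x0 * Δ : ℝ) + (t : ℂ) * I)‖ / Δ) with hφ
  have hφ0 : ∀ z t, 0 ≤ φ z t := fun z t => kk_nonneg _ _ _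
  have hφΛ : ∀ z t, φ z t ≤ Λ := fun z t => kk_le hρ hρR (by positivity)
  set g : ℝ → ℝ := fun t => ∑ z ∈ S, m z * φ z t with hg
  have hg0 : ∀ t, 0 ≤ g t := fun t => Finset.sum_nonneg fun z _ => mul_nonneg (hm0 z) (hφ0 z t)
  have hgc : Continuous g := by
    refine continuous_finsetSum _ fun z _ => ?_
    exact continuous_const.mul (ph_cont hρ hρR hΔp z)
  have hgi : ∑ z ∈ S, m z * (∫ t : ℝ, φ z t) = ∫ t : ℝ, g t := by
    rw [hg, integral_finsetSum _ (fun z _ => (ph_int hρ hρR hR1 hΔp z).const_mul _)]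
    refine Finset.sum_congr rfl fun z _ => ?_
    rw [integral_const_mul]
  -- the scales
  set y : ℕ → ℝ := fun k => 2 ^ k * Δ / 64 with hy
  have hyp : ∀ k, 0 < y k := fun k => by rw [hy]; positivity
  have hyge : ∀ k, Δ / 64 ≤ y k := by
    intro k
    have e1 : (1 : ℝ) ≤ 2 ^ k := one_le_pow₀ (by norm_num)
    have e2 : 1 * Δ ≤ 2 ^ k * Δ := mul_le_mul_of_nonneg_right e1 hΔp.le
    simp only [hy]
    linarith
  obtain ⟨K0, hK0⟩ : ∃ K0 : ℕ, 2 ≤ y K0 := by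
    obtain ⟨k, hk⟩ := pow_unbounded_of_one_lt (128 / Δ) (one_lt_two (α := ℝ))
    refine ⟨k, ?_⟩
    rw [div_lt_iff₀ hΔp] at hk
    simp only [hy]
    linarith
  have hK00 : K0 ≠ 0 := by
    intro h0
    rw [h0] at hK0
    simp only [hy, pow_zero] at hK0
    linarith
  obtain ⟨K, rfl⟩ : ∃ K, K0 = K + 1 := ⟨K0 - 1, by omega⟩
  -- the crude bound by the local count
  have hcr : ∀ t : ℝ, g t ≤ Λ * ∑ z ∈ S with φ z t ≠ 0, m z := by
    intro t
    rw [hg, Finset.mul_sum]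
    show ∑ z ∈ S, m z * φ z t ≤ _
    rw [← Finset.sum_filter_add_sum_filter_not S (fun z => φ z t ≠ 0)]
    have e1 : ∑ z ∈ S with ¬ φ z t ≠ 0, m z * φ z t = 0 := by
      refine Finset.sum_eq_zero fun z hz' => ?_
      have e2 := (Finset.mem_filter.1 hz').2
      rw [not_not] at e2
      rw [e2, mul_zero]
    rw [e1, add_zero]
    refine Finset.sum_le_sum fun z _ => ?_
    rw [mul_comm]
    exact mul_le_mul_of_nonneg_right (hφΛ z t) (hm0 z)
  have hfil : ∀ t : ℝ, ∀ z ∈ S.filter (fun z : ℂ => φ z t ≠ 0),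
      z ∈ S ∧ |z.im - t| ≤ Δ ∧ |z.re| ≤ 2 * Δ := fun t z hz' => by
    obtain ⟨e1, e2⟩ := Finset.mem_filter.1 hz'
    obtain ⟨e3, e4⟩ := ph_far hρ hρR hR1 hΔp z t e2
    refine ⟨e1, e3, ?_⟩
    have e5 : |z.re| ≤ |z.re - x0 * Δ| + |x0 * Δ| := by
      have := abs_add_le (z.re - x0 * Δ) (x0 * Δ)
      rwa [sub_add_cancel] at this
    have e6 : |x0 * Δ| ≤ Δ := by
      rw [abs_of_nonneg (by positivity)]
      have : x0 * Δ ≤ 1 * Δ := mul_le_mul_of_nonneg_right hx1 hΔp.le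
      linarith
    linarith
  -- the local count at the scale `Y`
  have hN : ∀ t ∈ Icc (T / 2) (4 * T), ∀ Y : ℝ, Δ / 64 ≤ Y → Y ≤ 2 → Reg1 t Y 64 κc L →
      g t ≤ Λ * (Cc * (Y * L)) := by
    intro t ht Y hY1 hY2 hr
    refine (hcr t).trans (mul_le_mul_of_nonneg_left ?_ hΛ0)
    exact hcnt T t Y μ hTTc ht.1 ht.2 (by linarith) hY2 hr hμ hAc' hΔc (by linarith)
      (S.filter fun z : ℂ => φ z t ≠ 0) (by
        intro z hz'
        obtain ⟨g1, g2, g3⟩ := hfil t z hz'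
        exact ⟨(hS z g1).1, g2, by linarith⟩)
  have hN2 : ∀ t ∈ Icc (T / 2) (4 * T), ∀ k : ℕ, (2 ≤ y k ∨ Reg1 t (y k) 64 κc L) →
      g t ≤ Λ * (Cc * (y k * L)) := by
    intro t ht k hk
    rcases le_or_gt 2 (y k) with e | e
    · have e1 := hN t ht 2 (by linarith) le_rfl ((hregx T hTTX).2 2 le_rfl t ht)
      refine e1.trans (mul_le_mul_of_nonneg_left ?_ hΛ0)
      exact mul_le_mul_of_nonneg_left (mul_le_mul_of_nonneg_right e hL.le) hCc.le
    · exact hN t ht (y k) (hyge k) e.le (hk.resolve_left (not_le.2 e))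
  -- the bad sets
  set X : ℕ → Set ℝ := fun k => {t : ℝ | t ∈ Icc (T / 2) (4 * T) ∧ ¬ Reg1 t (y k) 64 κc L}
    with hX
  set B1 : Set ℝ := {t : ℝ | t ∈ Icc T (2 * T) ∧ ¬ (CF t (A1 / L) (1 / κ) ∧
      ∀ z ∈ Kt t (A1 / L) 4 (1 / κ), ‖P z - (L / 2 : ℝ)‖ ≤ κ * L)} with hB1
  set B2 : Set ℝ := {t : ℝ | t ∈ Icc T (2 * T) ∧ Rg T t A1 (1 / κ) κ ∧
      ∀ z : ℂ, ‖z - ((x0 * Δ : ℝ) + (t : ℂ) * I)‖ ≤ ρ * Δ →
        ‖LL gk (-μ) z‖ < Gm T t μ * Real.exp ((x0 ^ 2 / 4 - ρ) * A)} with hB2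
  set B : Set ℝ := (Icc (T - Δ) T ∪ Icc (2 * T) (2 * T + Δ)) ∪ (B1 ∪ B2) with hB
  have hvB : volume B ≤ ENNReal.ofReal (2 * Δ + 2 * (ε0 * T)) := by
    have e1 : volume (Icc (T - Δ) T) ≤ ENNReal.ofReal Δ := by
      rw [Real.volume_Icc]
      exact ENNReal.ofReal_le_ofReal (by linarith)
    have e2 : volume (Icc (2 * T) (2 * T + Δ)) ≤ ENNReal.ofReal Δ := by
      rw [Real.volume_Icc]
      exact ENNReal.ofReal_le_ofReal (by linarith)
    have e3 : volume B1 ≤ ENNReal.ofReal (ε0 * T) := hreg T hTTr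
    have e4 : volume B2 ≤ ENNReal.ofReal (ε0 * T) := hhb T μ hTTh hμ hAh' hΔh
    have e5 : ENNReal.ofReal (2 * Δ + 2 * (ε0 * T)) = (ENNReal.ofReal Δ + ENNReal.ofReal Δ) +
        (ENNReal.ofReal (ε0 * T) + ENNReal.ofReal (ε0 * T)) := by
      rw [← ENNReal.ofReal_add hΔp.le hΔp.le, ← ENNReal.ofReal_add (by positivity) (by positivity),
        ← ENNReal.ofReal_add (by positivity) (by positivity)]
      congr 1
      ring
    rw [e5]
    refine (measure_union_le _ _).trans (add_le_add ?_ ?_)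
    · exact (measure_union_le _ _).trans (add_le_add e1 e2)
    · exact (measure_union_le _ _).trans (add_le_add e3 e4)
  have hicc : ∀ t ∈ Icc (T - Δ) (2 * T + Δ), t ∈ Icc (T / 2) (4 * T) := by
    intro t ht
    exact ⟨by linarith [ht.1], by linarith [ht.2]⟩
  have hfar : ∀ t, t ∉ Icc (T - Δ) (2 * T + Δ) → g t = 0 := by
    intro t ht
    refine Finset.sum_eq_zero fun z hz' => ?_
    by_contra hc
    have e1 : φ z t ≠ 0 := fun h0 => hc (by rw [h0, mul_zero])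
    have e2 := abs_le.1 (ph_far hρ hρR hR1 hΔp z t e1).1
    obtain ⟨-, e3, e4⟩ := hS z hz'
    exact ht ⟨by linarith [e2.1, e2.2], by linarith [e2.1, e2.2]⟩
  -- the good points
  have hgood : ∀ t ∈ Icc (T - Δ) (2 * T + Δ), t ∉ B →
      t ∈ Icc T (2 * T) ∧ g t ≤ (R ^ 2 / 8 + Cz * ρ) * A := by
    intro t ht hnB
    have g1 : T ≤ t := by
      by_contra hc
      exact hnB (Or.inl (Or.inl ⟨ht.1, (not_le.1 hc).le⟩))
    have g2 : t ≤ 2 * T := by
      by_contra hc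
      exact hnB (Or.inl (Or.inr ⟨(not_le.1 hc).le, ht.2⟩))
    have g3 : Rg T t A1 (1 / κ) κ := by
      by_contra hc
      exact hnB (Or.inr (Or.inl ⟨⟨g1, g2⟩, fun hcc => hc ⟨hcc.1, hcc.2⟩⟩))
    have g4 : ∃ z : ℂ, ‖z - ((x0 * Δ : ℝ) + (t : ℂ) * I)‖ ≤ ρ * Δ ∧
        Gm T t μ * Real.exp ((x0 ^ 2 / 4 - ρ) * A) ≤ ‖LL gk (-μ) z‖ := by
      by_contra hc
      push Not at hc
      exact hnB (Or.inr (Or.inr ⟨⟨g1, g2⟩, g3, hc⟩))
    exact ⟨⟨g1, g2⟩, hz T t μ x0 hTTz g1 g2 g3 hμ hAz' hΔz hx0 hx1 g4 S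
      (fun z hz' => (hS z hz').1)⟩
  -- integration
  have hfin := int_lev g hgc hg0 (K + 1 + 2)
    (lev (Icc T (2 * T)) B X)
    (lev ((R ^ 2 / 8 + Cz * ρ) * A) (Λ * (Cc * (y 0 * L))) (fun k => Λ * (Cc * (y (k + 1) * L))))
    (lev T (2 * Δ + 2 * (ε0 * T)) (fun k => CX * T * Real.exp (-(cX * y k * L))))
    (fun j => lev_nonneg (by positivity)
      (mul_nonneg hΛ0 (mul_nonneg hCc.le (mul_nonneg (hyp 0).le hL.le)))
      (fun k => mul_nonneg hΛ0 (mul_nonneg hCc.le (mul_nonneg (hyp _).le hL.le))) j)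
    (fun j => lev_nonneg hTp.le (by positivity) (fun k => by positivity) j) (by
      intro j _
      match j with
      | 0 =>
        change volume (Icc T (2 * T)) ≤ ENNReal.ofReal T
        rw [Real.volume_Icc]
        exact ENNReal.ofReal_le_ofReal (by linarith)
      | 1 => exact hvB
      | (k + 2) => exact (hregx T hTTX).1 (y k) (hyp k)) (by
      intro t
      by_cases htI : t ∈ Icc (T - Δ) (2 * T + Δ)
      · right
        have ht' := hicc t htI
        by_cases hex : ∃ k < K + 1, t ∈ X k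
        · obtain ⟨k, hk, hkX, hk'⟩ := largest (K + 1) (fun k => t ∈ X k) hex
          refine ⟨k + 2, by omega, hkX, ?_⟩
          refine hN2 t ht' (k + 1) ?_
          rcases hk' with e | e
          · left
            rw [e]
            exact hK0
          · right
            by_contra hc
            exact e ⟨ht', hc⟩
        · have hr : Reg1 t (y 0) 64 κc L := by
            by_contra hc
            exact hex ⟨0, by omega, ht', hc⟩
          by_cases hBt : t ∈ B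
          · exact ⟨1, by omega, hBt, hN2 t ht' 0 (Or.inr hr)⟩
          · obtain ⟨e1, e2⟩ := hgood t htI hBt
            exact ⟨0, by omega, e1, e2⟩
      · left
        exact hfar t htI)
  rw [sum_lev] at hfin
  -- the sum over the scales
  have hgeo := geo (q := cX * A / 64) hq0p (by
    rw [hq0]
    have e1 : cX * 1 ≤ cX * A := mul_le_mul_of_nonneg_left (hAc.trans hAc') hcX.le
    linarith) (K + 1)
  have hsum : ∑ k ∈ Finset.range (K + 1),
      Λ * (Cc * (y (k + 1) * L)) * (CX * T * Real.exp (-(cX * y k * L))) =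
      T * A * ((Λ * Cc * CX / 32) *
        ∑ k ∈ Finset.range (K + 1), (2 : ℝ) ^ k * Real.exp (-(2 ^ k * (cX * A / 64)))) := by
    rw [Finset.mul_sum, Finset.mul_sum]
    refine Finset.sum_congr rfl fun k _ => ?_
    have e1 : cX * y k * L = 2 ^ k * (cX * A / 64) := by
      simp only [hy]
      rw [← hΔL]
      ring
    have e2 : y (k + 1) * L = 2 ^ k * A / 32 := by
      simp only [hy, pow_succ]
      rw [← hΔL]
      ring
    rw [e1, e2]
    ring
  have htail : ∑ k ∈ Finset.range (K + 1),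
      Λ * (Cc * (y (k + 1) * L)) * (CX * T * Real.exp (-(cX * y k * L))) ≤ T * A * (ρ / 2) := by
    rw [hsum]
    refine mul_le_mul_of_nonneg_left ?_ (by positivity)
    calc (Λ * Cc * CX / 32) *
        ∑ k ∈ Finset.range (K + 1), (2 : ℝ) ^ k * Real.exp (-(2 ^ k * (cX * A / 64)))
        ≤ ((Λ + 1) * Cc * CX / 32) * (16 / q0 ^ 2 * Real.exp (-(cX * A / 64 / 2))) := by
          refine mul_le_mul ?_ hgeo (Finset.sum_nonneg fun k _ => by positivity) (by positivity)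
          have e1 : 0 ≤ Cc * CX / 32 := by positivity
          have e2 : (Λ + 1) * Cc * CX / 32 = Λ * Cc * CX / 32 + Cc * CX / 32 := by ring
          linarith
      _ = E * Real.exp (-(cX * A / 64 / 2)) := by rw [hE]; ring
      _ ≤ ρ / 2 := hAe A hAe'
  have hy0 : y 0 * L = A / 64 := by
    simp only [hy, pow_zero]
    rw [← hΔL]
    ring
  have hlev1 : Λ * (Cc * (y 0 * L)) * (2 * Δ + 2 * (ε0 * T)) ≤ T * A * (ρ / 2) := by
    rw [hy0]
    have e0 : 0 ≤ Λ * (Cc * (A / 64)) := by positivity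
    have e1 : 2 * Δ + 2 * (ε0 * T) ≤ 3 * (ε0 * T) := by linarith
    have e2 : Λ * (Cc * (A / 64)) * (2 * Δ + 2 * (ε0 * T)) ≤
        Λ * (Cc * (A / 64)) * (3 * (ε0 * T)) := mul_le_mul_of_nonneg_left e1 e0
    have e3 : Λ * (Cc * (A / 64)) * (3 * (ε0 * T)) = 3 / 64 * (T * A * (Λ * Cc * ε0)) := by ring
    have e4 : T * A * (Λ * Cc * ε0) ≤ T * A * ρ := mul_le_mul_of_nonneg_left hε1 (by positivity)
    have e5 : 0 ≤ T * A * ρ := by positivity
    linarith
  have hgoal : ∑ z ∈ S, m z * (∫ t : ℝ, φ z t) ≤ (R ^ 2 / 8 + (Cz + 1) * ρ) * A * T := by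
    rw [hgi]
    have e1 : (R ^ 2 / 8 + (Cz + 1) * ρ) * A * T =
        (R ^ 2 / 8 + Cz * ρ) * A * T + T * A * (ρ / 2) + T * A * (ρ / 2) := by ring
    linarith
  exact hgoal

end Pool.Agent.H106.HE
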